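import Mathlib
import Pool.Agent.Helper523_NSW.Arith

set_option autoImplicit false

/-!
# The two coordinates of a point of `x ^ 2 - 2 y ^ 2 = -1` are rarely both prime

The points of the branch `y > 0` of the real hyperbola `x ^ 2 - 2 y ^ 2 = -1` correspond to the positive
reals `x + y √2`.  With `α = 1 + √2` let `(x ρ n, y ρ n)` be the point with `x + y √2 = ρ α ^ n`.
For a sequence `z` of reals let `W z n` be the `n`-rough part (the product, with multiplicity, of the
prime factors larger than `n`) of `⌊z n⌋`.  The integer points of the hyperbola with two prime coordinates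
are the pairs `(W (x 1) l, W (y 1) l)` of primes with an odd prime `l`.

We prove that for almost every `ρ > 0` there are only finitely many `n` for which `W (x ρ) n` and
`W (y ρ) n` are both prime.
-/

namespace Pool.Agent.Results.MP_927e73_nt.BothRare

open Filter Topology MeasureTheory Asymptotics
open Pool.Agent.Helper523_NSW.A

/-- The pairs of primes `(p, r)` with `p ^ 2 - 2 r ^ 2 = -1` are the pairs of primes
`(W (x 1) l, W (y 1) l)` with an odd prime `l`.  For almost every `ρ > 0` there are only finitely many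
`n` for which `W (x ρ) n` and `W (y ρ) n` are both prime. -/
theorem result :
    (∀ p r : ℕ, (p.Prime ∧ r.Prime ∧ p ^ 2 + 1 = 2 * r ^ 2) ↔
      (p.Prime ∧ r.Prime ∧ ∃ l : ℕ, l.Prime ∧ l ≠ 2 ∧ W (x 1) l = p ∧ W (y 1) l = r)) ∧
    (∀ᵐ ρ : ℝ, 0 < ρ → {n : ℕ | (W (x ρ) n).Prime ∧ (W (y ρ) n).Prime}.Finite) := by
  refine ⟨fun p r => ?_, both⟩
  constructor
  · rintro ⟨hp, hr, h⟩
    obtain ⟨_, l, hl, hl2, hx, hy⟩ := (link p r).1 ⟨hp, h⟩
    obtain ⟨h1, h2⟩ := W_sol hl hl2
    rw [hx] at h1
    rw [hy] at h2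
    exact ⟨hp, hr, l, hl, hl2, by exact_mod_cast h1, by exact_mod_cast h2⟩
  · rintro ⟨hp, hr, l, hl, hl2, hx, hy⟩
    obtain ⟨h1, h2⟩ := W_sol hl hl2
    rw [hx] at h1
    rw [hy] at h2
    exact ⟨hp, hr, ((link p r).2 ⟨hp, l, hl, hl2, h1.symm, h2.symm⟩).2⟩

end Pool.Agent.Results.MP_927e73_nt.BothRare
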