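import Mathlib
import Pool.Agent.Helper523_NSW.Arith

set_option autoImplicit false

/-!
# Primes in the coordinates of the points of `x ^ 2 - 2 y ^ 2 = -1`

The points of the branch `y > 0` of the real hyperbola `x ^ 2 - 2 y ^ 2 = -1` correspond to the positive
reals `x + y √2`.  With `α = 1 + √2` let `(x ρ n, y ρ n)` be the point with `x + y √2 = ρ α ^ n`.  The
positive integer points are those with `ρ = 1` and `n` odd.
For a sequence `z` of reals let `W z n` be the `n`-rough part (the product, with multiplicity, of the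
prime factors larger than `n`) of `⌊z n⌋`.  For the integer points and a prime `n` this is the
coordinate itself, and only prime `n` can give a prime `x`.

We prove, for each of the two coordinates and almost every `ρ > 0`, the asymptotic law with an error term
for the number of primes `p ≤ n` with a prime value of `W`, and for every set `S` of primes the criterion
for infinitely many prime values and the corresponding law.
-/

namespace Pool.Agent.Results.MP_927e73_nt.RealPoints

open Filter Topology MeasureTheory Asymptotics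
open Pool.Agent.Helper523_NSW.A

/-- The integer points of `x ^ 2 - 2 y ^ 2 = -1` with a prime first coordinate are the points with
`ρ = 1` and an odd prime index `l`, and there the rough parts are the coordinates themselves.
For almost every `ρ > 0` the law holds for each coordinate, with an error term; for every set of primes
the number of prime values is finite or infinite according to the weight of the set, and in the second
case it obeys the corresponding law. -/
theorem result :
    (∀ ρ : ℝ, 0 < ρ → ∀ n : ℕ,
      x ρ n ^ 2 - 2 * y ρ n ^ 2 = -1 ∧ x ρ n + y ρ n * Real.sqrt 2 = ρ * α ^ n) ∧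
    (∀ p r : ℕ, (p.Prime ∧ p ^ 2 + 1 = 2 * r ^ 2) ↔
      (p.Prime ∧ ∃ l : ℕ, l.Prime ∧ l ≠ 2 ∧ x 1 l = p ∧ y 1 l = r)) ∧
    (∀ l : ℕ, l.Prime → l ≠ 2 → (W (x 1) l : ℝ) = x 1 l ∧ (W (y 1) l : ℝ) = y 1 l) ∧
    (∀ z : ℝ → ℕ → ℝ, z = x ∨ z = y →
      (∀ᵐ ρ : ℝ, 0 < ρ →
        (fun n : ℕ => (M Set.univ (z ρ) n : ℝ) -
          Real.exp Real.eulerMascheroniConstant / Real.log α * Real.log n) =O[atTop]
        (fun n : ℕ => Real.sqrt (Real.log n) * (Real.log (Real.log n)) ^ ((5 : ℝ) / 2))) ∧
      (∀ S : Set ℕ, Tendsto (V S) atTop atTop → ∀ᵐ ρ : ℝ, 0 < ρ →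
        (fun n : ℕ => (M S (z ρ) n : ℝ) -
          Real.exp Real.eulerMascheroniConstant / Real.log α * V S n) =O[atTop]
        (fun n : ℕ => Real.sqrt (V S n * Real.log (Real.log n)) *
          (Real.log (V S n * Real.log (Real.log n))) ^ 2)) ∧
      (∀ S : Set ℕ, ∀ᵐ ρ : ℝ, 0 < ρ →
        ({p : ℕ | p.Prime ∧ p ∈ S ∧ (W (z ρ) p).Prime}.Infinite ↔ Tendsto (V S) atTop atTop))) := by
  have hV : ∀ S, V S = Pool.Agent.TH888.R.VS S := fun S => funext fun n => V_eq S n
  refine ⟨fun ρ hρ n => point hρ n, link, fun l hl h2 => W_sol hl h2,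
    fun z hz => ⟨?_, fun S hS => ?_, fun S => ?_⟩⟩
  · filter_upwards [law hz Set.univ] with ρ hρ h0
    obtain ⟨B, hB, h⟩ := (hρ h0).law Pool.Agent.TH888.R.VS_univ_tendsto
    simp only [M_eq]
    exact Pool.Agent.TH888.R.bigO_all hB h
  · rw [hV] at hS ⊢
    filter_upwards [law hz S] with ρ hρ h0
    obtain ⟨B, hB, h⟩ := (hρ h0).law hS
    simp only [M_eq]
    exact Pool.Agent.TH888.R.bigO_set hB hS h
  · rw [hV]
    filter_upwards [law hz S] with ρ hρ h0
    constructor
    · intro hi
      by_contra hn
      exact hi ((hρ h0).fin hn)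
    · exact (hρ h0).inf

end Pool.Agent.Results.MP_927e73_nt.RealPoints
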